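import Mathlib
import Pool.Agent.Lib_helper41.AAN.Main
import Pool.Agent.Lib_helper41.AAN.StDual
import Pool.Agent.Lib_helper55.AAN.Apart
import Pool.Agent.Lib_helper53.AAN.Win45s

/-!
Proof (paper): helper47 (with the fourth order Taylor inequalities of helper90, helper42, helper30, the
one-sided inequality of helper19 and helper25's inequality for the second moments); part (ii): helper55,
by the duality of helper4 and helper18; the window `4 < α < 5`: helper53, helper4 (with helper11's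
lower bound of the second moment). Formalisation: helper30 (blocks A, B, C), helper41 (D, G), helper11
(E), helper4 (F), helper55 (part (ii)), helper53 (window), helper42, helper47. Vocabulary: helper98.
-/

set_option autoImplicit false

namespace Pool.Agent.Results.MP_859019_mp.AllAlphaNoisy

open Pool.Agent.Lib_helper98.Renyi Pool.Agent.Lib_helper4.AAN Pool.Agent.Lib_helper55.AAN

/-- The smallness condition on `(t₁, t₂)`: `h(t₁) h(t₂) ≤ N κ`, or `4 < α < 5` and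
`t_i ^ (α - 2) ≤ s₀(α)`, where `s₀ = (κ N - a²) / (κ (κ - N) - (κ - a)²)`,
`a = α (2^(α-2) - 1) / (α - 2)`. -/
def Small (α t₁ t₂ : ℝ) : Prop :=
  hh α t₁ * hh α t₂ ≤ nn α * kp α ∨
    α < 5 ∧ t₁ ^ (α - 2) ≤ Pool.Agent.Lib_helper53.AAN.s0 α ∧
      t₂ ^ (α - 2) ≤ Pool.Agent.Lib_helper53.AAN.s0 α

section aux

variable {b₁ b₂ : Type} [Fintype b₁] [DecidableEq b₁] [Fintype b₂] [DecidableEq b₂]
  {σ₁ : Fin 2 → Matrix b₁ b₁ ℂ} {σ₂ : Fin 2 → Matrix b₂ b₂ ℂ}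

theorem apart_window {α c₁ c₂ : ℝ} (h4 : 4 < α) (h5 : α < 5)
    (h₁ : ∀ x, IsDensity (σ₁ x)) (h₂ : ∀ x, IsDensity (σ₂ x))
    (hc₁ : 0 ≤ c₁) (hc₁' : c₁ ≤ 1) (hc₂ : 0 ≤ c₂) (hc₂' : c₂ ≤ 1)
    (a₁ : Apart c₁ σ₁) (a₂ : Apart c₂ σ₂)
    (hx : cang α c₁ ^ (α - 2) ≤ Pool.Agent.Lib_helper53.AAN.s0 α)
    (hy : cang α c₂ ^ (α - 2) ≤ Pool.Agent.Lib_helper53.AAN.s0 α) :
    Hsum α σ₁ σ₂ ≤ Fval α σ₁ σ₂ := by
  have hd := Pool.Agent.Lib_helper53.AAN.den_pos h4 h5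
  unfold Pool.Agent.Lib_helper53.AAN.s0 at hx hy
  rw [le_div_iff₀ hd] at hx hy
  have hS : Pool.Agent.Lib_helper11.AAN.StrictN α (cang α c₁) (cang α c₂) 1 (kp α) :=
    Pool.Agent.Lib_helper53.AAN.strictN_noisy h4 h5
    (cang_nonneg (by linarith) hc₁ hc₁') (cang_nonneg (by linarith) hc₂ hc₂') hx hy
  exact (states_apart_gen (by linarith) hc₁ hc₁' hc₂ hc₂' (kp_pos (by linarith)) hS
    h₁ h₂ a₁ a₂).2 (le_of_eq (one_mul _).symm)

theorem dual_window {α : ℝ} (h4 : 4 < α) (h5 : α < 5)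
    (h₁ : ∀ x, IsDensity (σ₁ x)) (h₂ : ∀ x, IsDensity (σ₂ x)) :
    (Kof α (condH α (cqState σ₁)) - 2 ^ (1 - α)) *
        (Kof α (condH α (cqState σ₂)) - 2 ^ (1 - α)) -
      2 ^ (1 - α) * (1 - (α - 1) * (α - 2) / (2 * (2 ^ (α - 2) - 1))) *
        ((1 - Kof α (condH α (cqState σ₁))) * (1 - Kof α (condH α (cqState σ₂)))) ≤
      (1 - 2 ^ (1 - α)) * (Kof α (Hsum α σ₁ σ₂) - 2 ^ (1 - α)) := by
  have k1 := Pool.Agent.Lib_helper53.AAN.c1_le_aa h4 h5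
  have k0 : 0 < Pool.Agent.Lib_helper53.AAN.c1 α := by
    unfold Pool.Agent.Lib_helper53.AAN.c1; nlinarith
  have ha : 0 < Pool.Agent.Lib_helper53.AAN.aa α := lt_of_lt_of_le k0 k1
  have hk : 0 < Pool.Agent.Lib_helper53.AAN.kp α := kp_pos (α := α) (by linarith)
  have hS' : Pool.Agent.Lib_helper11.AAN.StrictN α (cang α 1) (cang α 1)
      (Pool.Agent.Lib_helper53.AAN.c1 α)
      (Pool.Agent.Lib_helper53.AAN.aa α * Pool.Agent.Lib_helper53.AAN.kp α) := by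
    rw [cang_one (by linarith)]
    exact Pool.Agent.Lib_helper53.AAN.strictN_all h4 h5
  have h := (states_apart_gen (by linarith) zero_le_one le_rfl zero_le_one le_rfl
    (mul_pos ha hk) hS' h₁ h₂ apart_one apart_one).1
  have e : Pool.Agent.Lib_helper53.AAN.c1 α * kp α /
      (Pool.Agent.Lib_helper53.AAN.aa α * Pool.Agent.Lib_helper53.AAN.kp α) =
      (α - 1) * (α - 2) / (2 * (2 ^ (α - 2) - 1)) := by
    have hkp : kp α = Pool.Agent.Lib_helper53.AAN.kp α := rfl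
    rw [hkp, mul_div_mul_right _ _ hk.ne']
    have h2 : 0 < (2 : ℝ) ^ (α - 2) - 1 := by
      have : 1 < (2 : ℝ) ^ (α - 2) := Real.one_lt_rpow (by norm_num) (by linarith)
      linarith
    unfold Pool.Agent.Lib_helper53.AAN.c1 Pool.Agent.Lib_helper53.AAN.aa
    have h3 : α - 2 ≠ 0 := by linarith
    have h4' : α ≠ 0 := by linarith
    field_simp
  rw [e] at h
  exact h

end aux

/-- Every real `α > 4`, ARBITRARY density operators `σ₁ x`, `σ₂ x` (`x = 0, 1`), both systems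
finite-dimensional and fully quantum. `K₁`, `K₂`, `K₁₂` are `K_α` of the two input entropies and of the
output entropy, `δ = 2^(1-α)`, `N = nn α = α (α-1) / 2`, `κ = kp α = 2^(α-1) - 1`,
`h(c) = hh α c = N + c (κ - N)`; `c₁, c₂ ∈ [0,1]`.

(i) If `(1 - c_i) σ_i x ≤ (1 + c_i) σ_i (1-x)` for `x = 0, 1` (no condition for `c_i = 1`), then the
bound of Q1 holds with the factor `N κ / (h(c₁) h(c₂))`, and Q1 itself when `Small α c₁ c₂`.

(ii) If the cosine of the angle between the ranges of `σ_i 0` and `σ_i 1` is at most `c_i` (no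
condition for `c_i = 1`) and `t_i = cang α c_i = tanh (artanh c_i / α)`, then Q1 holds up to
`δ (1 - N κ / (h(t₁) h(t₂))) (1 - K₁) (1 - K₂)`, and Q1 itself holds when `Small α t₁ t₂`.

(iii) For `4 < α < 5` and ALL states, the factor `N κ / (h(c₁) h(c₂))` of (i), and of the error term of
(ii), can be replaced by `(α-1)(α-2) / (2 (2^(α-2) - 1))`. -/
theorem result {b₁ b₂ : Type} [Fintype b₁] [DecidableEq b₁] [Fintype b₂] [DecidableEq b₂]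
    (σ₁ : Fin 2 → Matrix b₁ b₁ ℂ) (σ₂ : Fin 2 → Matrix b₂ b₂ ℂ)
    (h₁ : ∀ x, IsDensity (σ₁ x)) (h₂ : ∀ x, IsDensity (σ₂ x)) (α : ℝ) (hα : 4 < α)
    (c₁ c₂ : ℝ) (hc₁ : 0 ≤ c₁) (hc₁' : c₁ ≤ 1) (hc₂ : 0 ≤ c₂) (hc₂' : c₂ ≤ 1) :
    (Noise c₁ σ₁ → Noise c₂ σ₂ →
      nn α * kp α / (hh α c₁ * hh α c₂) *
          ((Kof α (condH α (cqState σ₁)) - 2 ^ (1 - α)) *
            (Kof α (condH α (cqState σ₂)) - 2 ^ (1 - α)) / (1 - 2 ^ (1 - α))) ≤
        Kof α (Hsum α σ₁ σ₂) - 2 ^ (1 - α) ∧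
      (Small α c₁ c₂ → Hsum α σ₁ σ₂ ≤ Fval α σ₁ σ₂)) ∧
    (Apart c₁ σ₁ → Apart c₂ σ₂ →
      (Kof α (condH α (cqState σ₁)) - 2 ^ (1 - α)) *
          (Kof α (condH α (cqState σ₂)) - 2 ^ (1 - α)) -
        2 ^ (1 - α) * (1 - nn α * kp α / (hh α (cang α c₁) * hh α (cang α c₂))) *
          ((1 - Kof α (condH α (cqState σ₁))) * (1 - Kof α (condH α (cqState σ₂)))) ≤
        (1 - 2 ^ (1 - α)) * (Kof α (Hsum α σ₁ σ₂) - 2 ^ (1 - α)) ∧
      (Small α (cang α c₁) (cang α c₂) → Hsum α σ₁ σ₂ ≤ Fval α σ₁ σ₂)) ∧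
    (α < 5 →
      (α - 1) * (α - 2) / (2 * (2 ^ (α - 2) - 1)) *
          ((Kof α (condH α (cqState σ₁)) - 2 ^ (1 - α)) *
            (Kof α (condH α (cqState σ₂)) - 2 ^ (1 - α)) / (1 - 2 ^ (1 - α))) ≤
        Kof α (Hsum α σ₁ σ₂) - 2 ^ (1 - α) ∧
      (Kof α (condH α (cqState σ₁)) - 2 ^ (1 - α)) *
          (Kof α (condH α (cqState σ₂)) - 2 ^ (1 - α)) -
        2 ^ (1 - α) * (1 - (α - 1) * (α - 2) / (2 * (2 ^ (α - 2) - 1))) *
          ((1 - Kof α (condH α (cqState σ₁))) * (1 - Kof α (condH α (cqState σ₂)))) ≤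
        (1 - 2 ^ (1 - α)) * (Kof α (Hsum α σ₁ σ₂) - 2 ^ (1 - α))) := by
  have hα1 : 1 < α := by linarith
  have hα0 : 0 < α := by linarith
  refine ⟨fun n₁ n₂ => ?_, fun a₁ a₂ => ?_, fun h5 =>
    ⟨Pool.Agent.Lib_helper53.AAN.states_all hα h5 h₁ h₂, dual_window hα h5 h₁ h₂⟩⟩
  · obtain ⟨p, q⟩ := states_of_strictN hα1 hc₁ hc₁' hc₂ hc₂'
      (Pool.Agent.Lib_helper41.AAN.strictN_main hα hc₁ hc₁' hc₂ hc₂') h₁ h₂ n₁ n₂
    refine ⟨p, ?_⟩
    rintro (h | ⟨h5, x, y⟩)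
    · exact q h
    · exact Pool.Agent.Lib_helper53.AAN.states_noisy hα h5 h₁ h₂ hc₁ hc₂ x y n₁ n₂
  · obtain ⟨p, q⟩ := states_apart hα1 hc₁ hc₁' hc₂ hc₂'
      (Pool.Agent.Lib_helper41.AAN.strictN_main hα (cang_nonneg hα0 hc₁ hc₁')
        (cang_le_one hc₁ hc₁') (cang_nonneg hα0 hc₂ hc₂') (cang_le_one hc₂ hc₂'))
      h₁ h₂ a₁ a₂
    refine ⟨p, ?_⟩
    rintro (h | ⟨h5, x, y⟩)
    · exact q h
    · exact apart_window hα h5 h₁ h₂ hc₁ hc₁' hc₂ hc₂' a₁ a₂ x y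

end Pool.Agent.Results.MP_859019_mp.AllAlphaNoisy
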