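import Pool.Agent.Lib_helper43.LA.Fin
import Pool.Agent.Lib_helper41.LA.Peel
import Pool.Agent.Lib_helper56.LA.Swap
import Pool.Agent.Lib_helper80.LA.NR

/-!
# MP_859019_mp, Q1 at all large real orders, for every pair of states

For all finite-dimensional `B₁`, `B₂` and ALL density operators `σ_{i,x}` there is a real `α₀`,
depending on the states, such that

  `H_α(X₁ + X₂ | B₁B₂)_τ ≤ F_α(H_α(X₁|B₁), H_α(X₂|B₂))`   for every real `α ≥ α₀`.

So, for each fixed pair of states, Q1 can fail on a bounded set of orders only.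

Proof.  With `ρ = ρ_B`, `C = ρ^(-1/2) (σ₀ - σ₁)/2 ρ^(-1/2)`, `A = ρ^(1/p)`,
`D = ρ^(1/2p) C ρ^(1/2p)`, Q1 at the order `p` is `Lam p ρ C ρ' C' ≥ 0` (`Lib_helper43/LA/Defs2`).
* If `‖C‖ < 1` and `‖C'‖ < 1`: a Jensen-type lower bound `(r/2) (1 + ‖C‖‖C'‖)^p` for the joint term
  against the upper bounds `(1 + ‖C‖)^p`, `(1 + ‖C'‖)^p`, and
  `(1 + a)(1 + b) < 2 (1 + a b)` for `a, b < 1` (`ev_sub`).
* If one norm is 1 and neither `ρ, C` nor `ρ', C'` has a common eigenvector with `C f = ± f`: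
  the superadditivity `Tr (X+Y)^p ≥ Tr X^p + Tr Y^p + (p-1)(Tr X^(p-1) Y + Tr Y^(p-1) X)`, applied
  on the product, gives the criterion `crit`; its right side grows like
  `2^p (1 + ‖C‖)^p (1 + ‖C'‖)^p / p^4`.  The lower bound `Tr (A+D)^(p-1) (A-D) ≥ ε 2^p / p^2` in the
  case `C χ = χ` is block NR (`Lib_helper80/LA/NR`).
* A common eigenvector `f` of `ρ` and `C` with `C f = ± f` is peeled off: `Lam` does not change and
  the rank of `ρ` drops (block PEEL, `Lib_helper41/LA/Peel`; block SWAP exchanges the two sides,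
  `Lib_helper56/LA/Swap`).  Induction on the sum of the ranks.

Credits: helper43 (`Lib_helper43/LA`, chair), helper41 (PEEL), helper56 (SWAP; spare copy helper33),
helper80 (NR; with helper11, helper20), helper98 (the vocabulary `Lib_helper98/Renyi*`),
helper18 (hostile reading of the proof).
-/

set_option autoImplicit false

namespace Pool.Agent.Results.MP_859019_mp.LargeAlpha

open Pool.Agent.Lib_helper98.Renyi

/-- For every pair of finite-dimensional binary cq-states the Q1 inequality holds at every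
sufficiently large real order. -/
theorem result {b₁ b₂ : Type} [Fintype b₁] [DecidableEq b₁] [Fintype b₂] [DecidableEq b₂]
    (σ₁ : Fin 2 → Matrix b₁ b₁ ℂ) (σ₂ : Fin 2 → Matrix b₂ b₂ ℂ)
    (h₁ : ∀ x, IsDensity (σ₁ x)) (h₂ : ∀ x, IsDensity (σ₂ x)) :
    ∃ α₀ : ℝ, ∀ α : ℝ, α₀ ≤ α → Hsum α σ₁ σ₂ ≤ Fval α σ₁ σ₂ :=
  Pool.Agent.Lib_helper43.LA.large_all Pool.Agent.Lib_helper56.LA.swap
    Pool.Agent.Lib_helper41.LA.peel Pool.Agent.Lib_helper80.LA.nrTarget σ₁ σ₂ h₁ h₂

end Pool.Agent.Results.MP_859019_mp.LargeAlpha
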