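import Mathlib
import Pool.Agent.Lib_helper25.OPS.Side

/-!
Alpha in `(4,5)`, one side with two states differing by a pure state up to a factor, and every
`α > 4` with a pure state on each side: proof (paper) helper28, class `DiffBlocks` helper45.
Formalisation: helper69 (definitions), helper74, helper88 (derivatives, algebra, spectrum), helper60
(contour to half line), helper77 (Kelvin inversion), helper98, helper86 (positivity), helper64
(growth, glue), helper25 (normal form, faces, induction, states). Blocks of joint rank at most two:
helper4, helper19, helper88, helper12 and others.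
-/

set_option autoImplicit false

namespace Pool.Agent.Results.MP_859019_mp.QubitSideAllAlpha

open Pool.Agent.Lib_helper98.Renyi Pool.Agent.QS Pool.Agent.OP

/-- Q1, restricted sides: (i) for every real `α ∈ (4,5)` when one of the two systems carries a
flagged mixture of pairs each of which has joint rank at most two or consists of two states
differing by a pure state up to a factor (`DiffBlocks`; in particular when one of the four states is
pure), the other system and its states being arbitrary; (ii) for every real `α > 4` when each of the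
two systems carries a flagged mixture of pairs of joint rank at most two or containing a pure state
(`PureOrRankTwoBlocks`); (iii) for every real `α > 0` when one of the two systems has dimension at
most two or carries a flagged mixture of pairs of joint rank at most two (`RankTwoBlocks`), the
other system and its states being arbitrary. -/
theorem result {b₁ b₂ : Type} [Fintype b₁] [DecidableEq b₁] [Fintype b₂] [DecidableEq b₂]
    (σ₁ : Fin 2 → Matrix b₁ b₁ ℂ) (σ₂ : Fin 2 → Matrix b₂ b₂ ℂ)
    (h₁ : ∀ x, IsDensity (σ₁ x)) (h₂ : ∀ x, IsDensity (σ₂ x)) (α : ℝ)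
    (hf : ((4 < α ∧ α < 5) ∧ (DiffBlocks σ₁ ∨ DiffBlocks σ₂)) ∨
      (4 < α ∧ PureOrRankTwoBlocks σ₁ ∧ PureOrRankTwoBlocks σ₂) ∨
      ((Fintype.card b₁ ≤ 2 ∨ RankTwoBlocks σ₁) ∨ (Fintype.card b₂ ≤ 2 ∨ RankTwoBlocks σ₂))) :
    (((0 < α ∧ α ≤ 2) ∨ 3 ≤ α) → Hsum α σ₁ σ₂ ≤ Fval α σ₁ σ₂) ∧
      ((2 ≤ α ∧ α ≤ 3) → Fval α σ₁ σ₂ ≤ Hsum α σ₁ σ₂) :=
  side σ₁ σ₂ h₁ h₂ α hf

end Pool.Agent.Results.MP_859019_mp.QubitSideAllAlpha
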