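import Mathlib
import Pool.Agent.Lib_helper45.G56.All
import Pool.Agent.Lib_helper63.G56.Strict
import Pool.Agent.Lib_helper57.INL.Seven
import Pool.Agent.Lib_helper57.INL.Eight
import Pool.Agent.Lib_helper57.INL.Nine

/-!
`(5,6)`. Proof (paper): helper90, helper77, helper12, helper30, helper95, helper21 and others.
Formalisation: representation of `G` (helper11, helper56, helper26), Taylor inequalities of the layer
function (helper30, helper42, helper12, helper55), second moment (helper77, helper64, helper94,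
helper54), tensor pair (helper51, helper25, `Main23`), constants (helper5), final inequality and assembly
(helper63), closed interval (helper45). `α = 7`: helper57. `α = 8`: helper57, helper45. `α = 9`:
helper57, helper60, helper24. `(0,4]`: see `Lib_helper59/A1/Top` (helper50,
helper47, helper28, helper41, helper18, helper99, helper54 and others), `Lib_helper29/MOD/Main23`
(helper28, helper52, helper59, helper90, helper30, helper41, helper14, helper29, helper45, helper47 and
others) and `Lib_helper31/GC34/Main` (helper6, helper64, helper53, helper82, helper94, helper97,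
helper12, helper20 and others); vocabulary: helper98.
-/

set_option autoImplicit false

namespace Pool.Agent.Results.MP_859019_mp.StatesFourFiveSix

open Pool.Agent.Lib_helper98.Renyi

/-- Q1 for ARBITRARY density operators `σ₁ x` on `B₁` and `σ₂ x` on `B₂` (`x = 0, 1`), both systems
finite-dimensional and fully quantum: the conditional entropy of `X₁+X₂` given `B₁B₂` is at most `F_α`
for every real `α ∈ (0,2] ∪ [3,4] ∪ [5,6]` (`α = 1`, the conditional von Neumann entropy, included) and
for `α = 7`, `8` and `9`, and at least `F_α` for every real `α ∈ [2,3]`. -/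
theorem result {b₁ b₂ : Type} [Fintype b₁] [DecidableEq b₁] [Fintype b₂] [DecidableEq b₂]
    (σ₁ : Fin 2 → Matrix b₁ b₁ ℂ) (σ₂ : Fin 2 → Matrix b₂ b₂ ℂ)
    (h₁ : ∀ x, IsDensity (σ₁ x)) (h₂ : ∀ x, IsDensity (σ₂ x)) (α : ℝ) :
    ((0 < α ∧ α ≤ 2) ∨ (3 ≤ α ∧ α ≤ 4) ∨ (5 ≤ α ∧ α ≤ 6) ∨ α = 7 ∨ α = 8 ∨ α = 9 →
        Hsum α σ₁ σ₂ ≤ Fval α σ₁ σ₂) ∧
      (2 ≤ α ∧ α ≤ 3 → Fval α σ₁ σ₂ ≤ Hsum α σ₁ σ₂) := by
  obtain ⟨h, h'⟩ := Pool.Agent.Lib_helper45.G56.all_of_strict56
    (fun β h5 h6 => Pool.Agent.RC.G56.strict56 h5 h6) σ₁ σ₂ h₁ h₂ α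
  refine ⟨?_, h'⟩
  rintro (h2 | h4 | h6 | rfl | rfl | rfl)
  · exact h (Or.inl h2)
  · exact h (Or.inr (Or.inl h4))
  · exact h (Or.inr (Or.inr h6))
  · exact Pool.Agent.Lib_helper57.INL.alpha_seven σ₁ σ₂ h₁ h₂
  · exact Pool.Agent.Lib_helper57.INL.alpha_eight σ₁ σ₂ h₁ h₂
  · exact Pool.Agent.Lib_helper57.INL.alpha_nine σ₁ σ₂ h₁ h₂

end Pool.Agent.Results.MP_859019_mp.StatesFourFiveSix
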